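import Pool.Agent.helper95.PY2.Spec

/-!
# Project py2 (MP_f6e9a2_nt), row SHF
-/

set_option autoImplicit false

open Finset

namespace Pool.Agent.PY2

private theorem SHF_shift (F : ℕ → ℂ) (hF : ∀ n, ‖F n‖ ≤ 1) (N s : ℕ) :
    ‖∑ n ∈ range N, F n - ∑ n ∈ range N, F (n + s)‖ ≤ 2 * s := by
  have h1 : ∑ m ∈ range (N + s), F m = ∑ n ∈ range N, F n + ∑ i ∈ range s, F (N + i) :=
    Finset.sum_range_add _ _ _
  have h2 : ∑ m ∈ range (s + N), F m = ∑ m ∈ range s, F m + ∑ n ∈ range N, F (s + n) :=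
    Finset.sum_range_add _ _ _
  have h3 : ∑ n ∈ range N, F n - ∑ n ∈ range N, F (n + s) =
      ∑ m ∈ range s, F m - ∑ i ∈ range s, F (N + i) := by
    rw [add_comm s N, h1] at h2
    have h4 : ∑ n ∈ range N, F (s + n) = ∑ n ∈ range N, F (n + s) :=
      Finset.sum_congr rfl fun n _ => by rw [add_comm]
    rw [h4] at h2
    linear_combination h2
  rw [h3]
  calc ‖∑ m ∈ range s, F m - ∑ i ∈ range s, F (N + i)‖
      ≤ ‖∑ m ∈ range s, F m‖ + ‖∑ i ∈ range s, F (N + i)‖ := norm_sub_le _ _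
    _ ≤ s + s := by
      apply add_le_add
      · refine (norm_sum_le _ _).trans ((Finset.sum_le_sum fun m _ => hF m).trans (le_of_eq ?_))
        simp
      · refine (norm_sum_le _ _).trans ((Finset.sum_le_sum fun m _ => hF (N + m)).trans (le_of_eq ?_))
        simp
    _ = 2 * s := by ring

theorem SHF : SHF_stmt := by
  intro p _ χ N V h b h1 hp
  have hh : (h : ZMod p) ≠ 0 := by
    intro h0
    rw [ZMod.natCast_eq_zero_iff] at h0
    exact absurd (Nat.le_of_dvd (by omega) h0) (by omega)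
  set F : ℕ → ℂ := fun n => χ ((n : ZMod p) + b) *
    (starRingEnd ℂ) (χ ((n : ZMod p) + (b + (h : ZMod p)))) with hFdef
  have hle : ∀ y : ZMod p, ‖χ y‖ ≤ 1 := fun y => DirichletCharacter.norm_le_one χ y
  have hF : ∀ n, ‖F n‖ ≤ 1 := by
    intro n
    simp only [hFdef]
    rw [norm_mul, RCLike.norm_conj]
    exact mul_le_one₀ (hle _) (norm_nonneg _) (hle _)
  have hGc : Gc χ N b (b + (h : ZMod p)) = ∑ n ∈ range N, F n := rfl
  have hunit : χ (h : ZMod p) * (starRingEnd ℂ) (χ (h : ZMod p)) = 1 := by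
    rw [Complex.mul_conj, Complex.normSq_eq_norm_sq]
    have : ‖χ (h : ZMod p)‖ = 1 := DirichletCharacter.unit_norm_eq_one χ (Units.mk0 _ hh)
    rw [this]
    norm_num
  have hFv : ∀ n v : ℕ, F (n + 2 * v * h) =
      χ (((2 * v : ℕ) : ZMod p) + ((n : ZMod p) + b) / (h : ZMod p)) *
        (starRingEnd ℂ) (χ (((2 * v + 1 : ℕ) : ZMod p) + ((n : ZMod p) + b) / (h : ZMod p))) := by
    intro n v
    simp only [hFdef]
    have e1 : (((n + 2 * v * h : ℕ) : ZMod p) + b) =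
        (h : ZMod p) * (((2 * v : ℕ) : ZMod p) + ((n : ZMod p) + b) / (h : ZMod p)) := by
      push_cast
      field_simp
      ring
    have e2 : (((n + 2 * v * h : ℕ) : ZMod p) + (b + (h : ZMod p))) =
        (h : ZMod p) * (((2 * v + 1 : ℕ) : ZMod p) + ((n : ZMod p) + b) / (h : ZMod p)) := by
      push_cast
      field_simp
      ring
    rw [e1, e2, map_mul, map_mul, map_mul]
    calc _ = (χ (h : ZMod p) * (starRingEnd ℂ) (χ (h : ZMod p))) *
          (χ (((2 * v : ℕ) : ZMod p) + ((n : ZMod p) + b) / (h : ZMod p)) *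
        (starRingEnd ℂ) (χ (((2 * v + 1 : ℕ) : ZMod p) + ((n : ZMod p) + b) / (h : ZMod p)))) := by
          ring
      _ = _ := by rw [hunit, one_mul]
  rw [hGc]
  have hV : (V : ℝ) * ‖∑ n ∈ range N, F n‖ = ‖∑ v ∈ Icc 1 V, ∑ n ∈ range N, F n‖ := by
    rw [Finset.sum_const, Nat.card_Icc, Nat.add_sub_cancel, nsmul_eq_mul, norm_mul, Complex.norm_natCast]
  rw [hV]
  have hsplit : ∑ v ∈ Icc 1 V, ∑ n ∈ range N, F n =
      ∑ n ∈ range N, ∑ v ∈ Icc 1 V, F (n + 2 * v * h) +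
      ∑ v ∈ Icc 1 V, (∑ n ∈ range N, F n - ∑ n ∈ range N, F (n + 2 * v * h)) := by
    rw [Finset.sum_sub_distrib, Finset.sum_comm (s := range N) (t := Icc 1 V)]
    ring
  rw [hsplit]
  refine (norm_add_le _ _).trans (add_le_add ?_ ?_)
  · refine (norm_sum_le _ _).trans (Finset.sum_le_sum fun n _ => ?_)
    unfold Ph
    rw [Finset.sum_congr rfl fun v _ => hFv n v]
  · refine (norm_sum_le _ _).trans ?_
    calc ∑ v ∈ Icc 1 V, ‖∑ n ∈ range N, F n - ∑ n ∈ range N, F (n + 2 * v * h)‖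
        ≤ ∑ v ∈ Icc 1 V, (4 * h * V : ℝ) := by
          refine Finset.sum_le_sum fun v hv => (SHF_shift F hF N (2 * v * h)).trans ?_
          have hvV : (v : ℝ) ≤ V := by exact_mod_cast (mem_Icc.mp hv).2
          push_cast
          have : (0 : ℝ) ≤ h := Nat.cast_nonneg h
          nlinarith
      _ = 4 * h * (V : ℝ) ^ 2 := by
          rw [Finset.sum_const, Nat.card_Icc, Nat.add_sub_cancel, nsmul_eq_mul]
          ring

end Pool.Agent.PY2
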